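import Pool.Agent.Helper65.HF.StN

/-! Project HF, module HUP: elementary properties of the generic Hilbert function. -/

namespace Pool.Agent.Helper62.HF

open MvPolynomial Pool.Agent.Helper45 Pool.Agent.Helper65.HF

section

variable {k : Type} [Field k]

lemma gen_zero' (N j E : ℕ) : Gr.gen k (Fin N) j E 0 = 0 := by
  obtain ⟨P, hP⟩ := Gr.gen_attained (k := k) (σ := Fin N) j E 0
  rw [← hP]
  have : Gr.setPart (Gr.pw P j) (Finset.univ : Finset (Fin 0)) E = ⊥ := by
    unfold Gr.setPart
    rw [eq_bot_iff]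
    exact iSup₂_le fun i _ => i.elim0
  rw [this, finrank_bot]

lemma gen_le' (N j c r : ℕ) (h : j ≤ c) :
    Gr.gen k (Fin N) j (c - j) r ≤ (N + c - 1).choose c := by
  have h1 := Gr.gen_le_homog (k := k) (σ := Fin N) j (c - j) r
  rw [finrank_homog, Nat.sub_add_cancel h, Fintype.card_fin] at h1
  exact h1

lemma gen_mono' (N j E r : ℕ) : Gr.gen k (Fin N) j E r ≤ Gr.gen k (Fin N) j E (r + 1) := by
  obtain ⟨P, hP⟩ := Gr.gen_attained (k := k) (σ := Fin N) j E r
  rw [← hP]
  obtain ⟨Q, hQ⟩ : ∃ Q : Fin (r + 1) → Fin N → k, ∀ a, Q (Fin.castSucc a) = P a :=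
    ⟨Fin.snoc P 0, fun a => by simp⟩
  have h1 := Gr.le_gen (k := k) (σ := Fin N) j E Q Finset.univ
  rw [Finset.card_univ, Fintype.card_fin] at h1
  refine le_trans ?_ h1
  have : Module.Finite k (Gr.setPart (Gr.pw Q j) Finset.univ E) :=
    Gr.finite_setPart (Gr.pw_isHomogeneous Q j) _ E
  apply Submodule.finrank_mono
  unfold Gr.setPart
  refine iSup₂_le fun i _ => ?_
  have h2 : Gr.pw P j i = Gr.pw Q j (Fin.castSucc i) := by
    unfold Gr.pw
    rw [hQ]
  rw [h2]
  exact le_iSup₂ (f := fun (a : Fin (r + 1)) (_ : a ∈ Finset.univ) =>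
    (homogeneousSubmodule (Fin N) k E).map (LinearMap.mulLeft k (Gr.pw Q j a)))
    (Fin.castSucc i) (Finset.mem_univ _)

lemma exists_eval_ne [Infinite k] {ι : Type} {G : MvPolynomial ι k} (h : G ≠ 0) :
    ∃ P : ι → k, eval P G ≠ 0 := by
  by_contra hc
  push Not at hc
  exact h (MvPolynomial.funext fun P => by rw [hc P, map_zero])

lemma lowPart_le_col {σ ι : Type} [Fintype σ] {f : ι → MvPolynomial σ k} {j : ℕ}
    (hf : ∀ a, (f a).IsHomogeneous j) (S : Finset ι) (o : ι) {E : ℕ} (h : j ≤ E) :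
    Gr.setPart f S (E - j) ≤ Gr.col f S (f o) E := by
  unfold Gr.setPart
  refine iSup₂_le fun a ha => ?_
  rintro _ ⟨g, hg, rfl⟩
  have hg' : g.IsHomogeneous (E - j) := hg
  rw [LinearMap.mulLeft_apply, Gr.mem_col]
  refine ⟨?_, ?_⟩
  · have := (hf a).mul hg'
    rwa [Nat.add_sub_cancel' h] at this
  · have e : f o * (f a * g) = f a * (f o * g) := by ring
    rw [e]
    have := (hf o).mul hg'
    rw [Nat.add_sub_cancel' h] at this
    exact Gr.mul_mem_setPart ha this

lemma step [Infinite k] (N j E r : ℕ) (hN : 1 ≤ N) :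
    Gr.gen k (Fin N) j E (r + 1) + (if j ≤ E then Gr.gen k (Fin N) j (E - j) r else 0) ≤
      (N + E - 1).choose E + Gr.gen k (Fin N) j E r := by
  obtain ⟨G1, hG1, hG1'⟩ := Gr.exists_generic_tuple (k := k) (σ := Fin N) (ι := Fin (r + 1)) j E
  obtain ⟨G2, hG2, hG2'⟩ :=
    Gr.exists_generic_tuple (k := k) (σ := Fin N) (ι := Fin (r + 1)) j (E - j)
  let s0 : Fin N := ⟨0, hN⟩
  have hne : G1 * G2 * (X (Fin.last r, s0) : MvPolynomial (Fin (r + 1) × Fin N) k) ≠ 0 :=
    mul_ne_zero (mul_ne_zero hG1 hG2) (X_ne_zero _)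
  obtain ⟨P, hP⟩ := exists_eval_ne hne
  rw [map_mul, map_mul, eval_X] at hP
  have hP1 := left_ne_zero_of_mul (left_ne_zero_of_mul hP)
  have hP2 := right_ne_zero_of_mul (left_ne_zero_of_mul hP)
  have hP3 := right_ne_zero_of_mul hP
  obtain ⟨f, hfdef⟩ : ∃ f, f = Gr.pw (fun a s => P (a, s)) j := ⟨_, rfl⟩
  have hf : ∀ a, (f a).IsHomogeneous j := by
    rw [hfdef]
    exact Gr.pw_isHomogeneous _ j
  have h0 : f (Fin.last r) ≠ 0 := by
    rw [hfdef]
    unfold Gr.pw
    refine pow_ne_zero _ (linForm_ne_zero ?_)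
    intro hz
    exact hP3 (congrFun hz s0)
  obtain ⟨S, hS⟩ : ∃ S : Finset (Fin (r + 1)), S = Finset.univ.erase (Fin.last r) := ⟨_, rfl⟩
  have hScard : S.card = r := by
    rw [hS, Finset.card_erase_of_mem (Finset.mem_univ _), Finset.card_univ, Fintype.card_fin]
    rfl
  have hins : insert (Fin.last r) S = Finset.univ := by
    rw [hS, Finset.insert_erase (Finset.mem_univ _)]
  have h1 := Gr.finrank_col hf h0 S E
  rw [hins, finrank_homog, Fintype.card_fin] at h1
  have h2 : Module.finrank k (Gr.setPart f Finset.univ E) = Gr.gen k (Fin N) j E (r + 1) := by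
    have := hG1' P hP1 Finset.univ
    rw [Finset.card_univ, Fintype.card_fin, ← hfdef] at this
    exact this
  have h3 : Module.finrank k (Gr.setPart f S E) = Gr.gen k (Fin N) j E r := by
    have := hG1' P hP1 S
    rw [hScard, ← hfdef] at this
    exact this
  have h4 : (if j ≤ E then Gr.gen k (Fin N) j (E - j) r else 0) ≤
      Module.finrank k (Gr.col f S (f (Fin.last r)) E) := by
    split_ifs with hj
    · have h5 : Module.finrank k (Gr.setPart f S (E - j)) = Gr.gen k (Fin N) j (E - j) r := by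
        have := hG2' P hP2 S
        rw [hScard, ← hfdef] at this
        exact this
      rw [← h5]
      have : Module.Finite k (Gr.col f S (f (Fin.last r)) E) := Gr.finite_col _ _ _ _
      exact Submodule.finrank_mono (lowPart_le_col hf S (Fin.last r) hj)
    · exact Nat.zero_le _
  omega

end

theorem hHUP : Pool.Agent.Helper65.HF.sHUP := by
  intro k _ _ j N r c hj
  refine ⟨Nat.sub_le _ _, ?_, ?_, ?_, ?_⟩
  · unfold H
    rw [gen_zero']
    simp
  · intro h
    unfold H
    rw [if_neg (by omega)]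
    simp
  · unfold H
    have := gen_mono' (k := k) N j (c - j) r
    split_ifs <;> omega
  · intro hjc
    rcases Nat.eq_zero_or_pos N with hN | hN
    · subst hN
      unfold H
      have h1 : (0 + c - 1).choose c = 0 := Nat.choose_eq_zero_of_lt (by omega)
      rw [h1]
      omega
    · unfold H
      rw [if_pos hjc, if_pos hjc]
      have h1 := step (k := k) N j (c - j) r hN
      have h2 := gen_le' (k := k) N j c (r + 1) hjc
      have h3 : (if j ≤ c - j then Gr.gen k (Fin N) j (c - j - j) r else 0) ≤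
          (N + (c - j) - 1).choose (c - j) := by
        split_ifs with h
        · exact gen_le' N j (c - j) r h
        · exact Nat.zero_le _
      omega

end Pool.Agent.Helper62.HF
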